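import Pool.Agent.H36AC.Bas

/-!
# The automorphisms of the cohomology attached to pairs of automorphisms of the complex numbers
-/

open CategoryTheory AlgebraicGeometry Filter Topology

open scoped TensorProduct ENNReal

universe u

namespace Pool.Agent.H36AC

open Module
open Pool.Agent.H914 Pool.Agent.H914.VarClass Pool.Agent.H914.VarClass.Obj
  Pool.Agent.H914.WeilCohomology
open Pool.Agent.Y133.Half (ClassPred pw)
open Pool.Agent.Y133.Per Pool.Agent.R920.DB Pool.Agent.H60ZO

section

variable (K L : Type*) [Field K] [Field L] [Algebra K ℂ] [Algebra K L] [Algebra L ℂ]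
  [IsScalarTower K L ℂ] (A : Type*) [Ring A]
  [Algebra K A]

/-- The two extensions of the coefficients to `ℂ`. -/
noncomputable def kapR : ℂ ⊗[L] (L ⊗[K] A) ≃+* ℂ ⊗[K] A :=
  { (TensorProduct.AlgebraTensorModule.cancelBaseChange K L ℂ ℂ A).toAddEquiv with
    map_mul' := fun x y => by
      change TensorProduct.AlgebraTensorModule.cancelBaseChange K L ℂ ℂ A (x * y) =
        TensorProduct.AlgebraTensorModule.cancelBaseChange K L ℂ ℂ A x *
        TensorProduct.AlgebraTensorModule.cancelBaseChange K L ℂ ℂ A y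
      induction x using TensorProduct.induction_on with
      | zero => rw [zero_mul, map_zero, zero_mul]
      | add a b ha hb => rw [add_mul, map_add, ha, hb, map_add, add_mul]
      | tmul r z =>
        induction y using TensorProduct.induction_on with
        | zero => rw [mul_zero, map_zero, mul_zero]
        | add a b ha hb => rw [mul_add, map_add, ha, hb, map_add, mul_add]
        | tmul s w =>
          rw [Algebra.TensorProduct.tmul_mul_tmul]
          induction z using TensorProduct.induction_on with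
          | zero => simp
          | add a b ha hb =>
            rw [add_mul, TensorProduct.tmul_add, map_add, ha, hb, TensorProduct.tmul_add, map_add,
              add_mul]
          | tmul l a =>
            induction w using TensorProduct.induction_on with
            | zero => simp
            | add a b ha hb =>
              rw [mul_add, TensorProduct.tmul_add, map_add, ha, hb, TensorProduct.tmul_add,
                map_add, mul_add]
            | tmul m b =>
              rw [Algebra.TensorProduct.tmul_mul_tmul]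
              simp only [TensorProduct.AlgebraTensorModule.cancelBaseChange_tmul]
              rw [Algebra.TensorProduct.tmul_mul_tmul, smul_mul_smul_comm] }

variable {A} in
lemma kapR_tmul (r : ℂ) (l : L) (a : A) : kapR K L A (r ⊗ₜ[L] (l ⊗ₜ[K] a)) = (l • r) ⊗ₜ[K] a :=
  TensorProduct.AlgebraTensorModule.cancelBaseChange_tmul K L ℂ (M := ℂ) r a l

variable {A} in
lemma kapR_smul (r : ℂ) (a : ℂ ⊗[L] (L ⊗[K] A)) : kapR K L A (r • a) = r • kapR K L A a :=
  map_smul (TensorProduct.AlgebraTensorModule.cancelBaseChange K L ℂ ℂ A) r a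

end

variable {k : Type u} [Field k] {𝒱 : VarClass k} {ops : CycleOps 𝒱}

section

variable (W : WeilCohomology.{u, 0} ops) [Algebra W.K ℂ] (E : IntermediateField W.K ℂ)

/-- The cohomology with coefficients in `E`. -/
noncomputable abbrev WE : WeilCohomology.{u, 0} ops := baseW W E

@[reducible]
noncomputable instance instAlgWE : Algebra (WE W E).K ℂ := (inferInstance : Algebra E ℂ)

/-- The identification of the two extensions of the coefficients to `ℂ`. -/
noncomputable def kap (X : 𝒱.Obj) : HE (WE W E) ℂ X ≃+* Base W.K (W.H X) :=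
  kapR W.K E (W.H X)

variable {W E} {X Y Z : 𝒱.Obj}

/-- The element `e ⊗ c`. -/
noncomputable def et (e : E) (c : W.H X) : (WE W E).H X := (e ⊗ₜ[W.K] c : E ⊗[W.K] W.H X)

lemma et_ind {p : (WE W E).H X → Prop} (h0 : p 0) (hadd : ∀ a b, p a → p b → p (a + b))
    (h : ∀ (e : E) c, p (et e c)) (z : (WE W E).H X) : p z :=
  TensorProduct.induction_on (motive := fun z : E ⊗[W.K] W.H X => p z) z h0 h
    fun a b ha hb => hadd a b ha hb

lemma et_ind_mem {U : Submodule W.K (W.H X)} {p : (WE W E).H X → Prop} (h0 : p 0)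
    (hadd : ∀ a b, p a → p b → p (a + b)) (h : ∀ (e : E), ∀ c ∈ U, p (et e c))
    {z : (WE W E).H X} (hz : z ∈ (U.baseChange E : Submodule E (E ⊗[W.K] W.H X))) : p z :=
  base_induction (P := fun z : E ⊗[W.K] W.H X => p z) h0 (fun a b ha hb => hadd a b ha hb) h hz

/-- The inclusion of the coefficients. -/
noncomputable def inc (X : 𝒱.Obj) : (WE W E).H X →+* Base W.K (W.H X) :=
  (inE E (A := W.H X) : E ⊗[W.K] W.H X →+* Base W.K (W.H X))

lemma inc_et (e : E) (c : W.H X) : inc X (et e c) = tm (e : ℂ) c := inE_tmul E e c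

lemma et_smul (r e : E) (c : W.H X) : ((show (WE W E).K from r) • et e c) = et (r * e) c := by
  change r • (e ⊗ₜ[W.K] c : E ⊗[W.K] W.H X) = ((r * e) ⊗ₜ[W.K] c : E ⊗[W.K] W.H X)
  rw [TensorProduct.smul_tmul', smul_eq_mul]

lemma map_et (f : X ⟶ Y) (e : E) (c : W.H Y) : (WE W E).map f (et e c) = et e (W.map f c) :=
  Algebra.TensorProduct.map_tmul _ _ _ _

lemma push_et (f : X ⟶ Y) (e : E) (c : W.H X) : (WE W E).push f (et e c) = et e (W.push f c) :=
  LinearMap.baseChange_tmul _ _ _

lemma cl_et (z : X.Cycles) : (WE W E).cl X z = et 1 (W.cl X z) := rfl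

lemma et_mem {U : Submodule W.K (W.H X)} (e : E) {c : W.H X} (hc : c ∈ U) :
    et e c ∈ (U.baseChange E : Submodule E (E ⊗[W.K] W.H X)) :=
  Submodule.tmul_mem_baseChange_of_mem e hc

lemma kap_et (r : ℂ) (e : E) (c : W.H X) :
    kap W E X (r ⊗ₜ[(WE W E).K] et e c) = tm (r * (e : ℂ)) c := by
  have h1 := kapR_tmul W.K E r e c
  refine h1.trans ?_
  have h2 : e • r = r * (e : ℂ) := by
    rw [mul_comm]; rfl
  rw [h2]
  rfl

lemma kap_smul (r : ℂ) (a : HE (WE W E) ℂ X) : kap W E X (r • a) = r • kap W E X a :=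
  kapR_smul W.K E r a

lemma kap_symm_smul (r : ℂ) (a : Base W.K (W.H X)) :
    (kap W E X).symm (r • a) = r • (kap W E X).symm a := by
  apply (kap W E X).injective
  rw [kap_smul, RingEquiv.apply_symm_apply, RingEquiv.apply_symm_apply]

lemma kap_tmul (r : ℂ) (z : (WE W E).H X) :
    kap W E X (r ⊗ₜ[(WE W E).K] z) = r • inc X z := by
  refine et_ind (p := fun z => kap W E X (r ⊗ₜ[(WE W E).K] z) = r • inc X z) ?_ ?_ ?_ z
  · rw [TensorProduct.tmul_zero, map_zero, map_zero, smul_zero]
  · intro x y hx hy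
    rw [TensorProduct.tmul_add, map_add, hx, hy, map_add, smul_add]
  · intro e c
    rw [kap_et, inc_et, smul_tm]

lemma inc_smul (e : (WE W E).K) (z : (WE W E).H X) :
    inc X (e • z) = ((show E from e : E) : ℂ) • inc X z := inE_smul E e z

lemma inc_map (f : X ⟶ Y) (z : (WE W E).H Y) :
    inc X ((WE W E).map f z) = baseMap (W.map f) (inc Y z) := inE_map E (W.map f) z

lemma inc_injective : Function.Injective (inc X : (WE W E).H X →+* Base W.K (W.H X)) :=
  inE_injective E

lemma kap_nat (f : X ⟶ Y) (y : HE (WE W E) ℂ Y) :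
    kap W E X (mapE (WE W E) ℂ f y) = baseMap (W.map f) (kap W E Y y) := by
  induction y using TensorProduct.induction_on with
  | zero => simp only [map_zero]
  | add a b ha hb => rw [map_add, map_add, ha, hb, map_add, map_add]
  | tmul r z => rw [mapE_tmul, kap_tmul, kap_tmul, inc_map, map_smul]

lemma kap_symm_nat (f : X ⟶ Y) (y : Base W.K (W.H Y)) :
    (kap W E X).symm (baseMap (W.map f) y) = mapE (WE W E) ℂ f ((kap W E Y).symm y) := by
  apply (kap W E X).injective
  rw [kap_nat, RingEquiv.apply_symm_apply, RingEquiv.apply_symm_apply]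

lemma kap_symm_tm (r : ℂ) (c : W.H X) :
    (kap W E X).symm (tm r c) = r ⊗ₜ[(WE W E).K] et (1 : E) c := by
  apply (kap W E X).injective
  rw [RingEquiv.apply_symm_apply, kap_et]
  have : r * ((1 : E) : ℂ) = r := by rw [OneMemClass.coe_one, mul_one]
  rw [this]

lemma inc_mem {i : ℕ} {c : (WE W E).H X} (hc : c ∈ (WE W E).gr X i) :
    inc X c ∈ spanE E (W.gr X i : Set (W.H X)) := inE_mem_spanE hc

lemma spanE_le_baseSub {U : Submodule W.K (W.H X)} {v : Base W.K (W.H X)}
    (hv : v ∈ spanE E (U : Set (W.H X))) : v ∈ baseSub U := by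
  refine spanE_ind (p := fun v => v ∈ baseSub U) (Submodule.zero_mem _) ?_ ?_ hv
  · intro e c hc
    exact tm_mem _ hc
  · intro a b ha hb
    exact Submodule.add_mem _ ha hb

lemma kap_symm_mem {i : ℕ} {b : Base W.K (W.H X)} (hb : b ∈ baseSub (W.gr X i)) :
    (kap W E X).symm b ∈ ((WE W E).gr X i).baseChange ℂ := by
  refine baseSub_ind (p := fun b => (kap W E X).symm b ∈ ((WE W E).gr X i).baseChange ℂ)
    ?_ ?_ ?_ hb
  · rw [map_zero]; exact Submodule.zero_mem _
  · intro r c hc
    rw [kap_symm_tm]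
    exact Submodule.tmul_mem_baseChange_of_mem r (et_mem (1 : E) hc)
  · intro a b ha hb
    rw [map_add]; exact Submodule.add_mem _ ha hb

end

section

variable {W : WeilCohomology.{u, 0} ops} [Algebra W.K ℂ] {F : Subfield ℂ} {X Y Z : 𝒱.Obj}

/-- The pairs of automorphisms. -/
abbrev Gam (W : WeilCohomology.{u, 0} ops) [Algebra W.K ℂ] (F : Subfield ℂ) : Type :=
  AutF F × (ℂ ≃ₐ[W.K] ℂ)

/-- The semilinear map attached to a pair. -/
noncomputable def hX (D : DeRham W F) (X : 𝒱.Obj) (t : Gam W F) :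
    Base W.K (W.H X) →+* Base W.K (W.H X) :=
  ((sB t.2).comp (dRr D X t.1)).comp (sB t.2.symm)

lemma hX_apply (D : DeRham W F) (t : Gam W F) (a : Base W.K (W.H X)) :
    hX D X t a = sB t.2 (dRs D X t.1 (sB t.2.symm a)) := rfl

lemma hX_smul (D : DeRham W F) (t : Gam W F) (r : ℂ) (a : Base W.K (W.H X)) :
    hX D X t (r • a) = t.2 (t.1.1 (t.2.symm r)) • hX D X t a := by
  rw [hX_apply, sB_smul, dRs_smul, sB_smul]
  rfl

lemma hX_surj (D : DeRham W F) (t : Gam W F) : Function.Surjective (hX D X t) := by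
  intro v
  refine ⟨sB t.2 (semi (dRb D X) t.1.1.symm (sB t.2.symm v)), ?_⟩
  rw [hX_apply, sB_symm']
  have h1 : dRs D X t.1 (semi (dRb D X) t.1.1.symm (sB t.2.symm v)) = sB t.2.symm v :=
    semi_symm _ _ _
  rw [h1, sB_symm]

lemma dRs_mem {D : DeRham W F} (hD : IsGraded D) (g : AutF F) {i : ℕ} {a : Base W.K (W.H X)}
    (ha : a ∈ baseSub (W.gr X i)) : dRs D X g a ∈ baseSub (W.gr X i) := by
  refine baseSub_ind (p := fun a => dRs D X g a ∈ baseSub (W.gr X i)) ?_ ?_ ?_ ha
  · rw [map_zero]; exact Submodule.zero_mem _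
  · intro r c hc
    have h1 : (tm r c : Base W.K (W.H X)) = r • tm 1 c := by rw [smul_tm, mul_one]
    rw [h1, dRs_smul]
    exact Submodule.smul_mem _ _ (dRs_gr hD g hc)
  · intro a b ha hb
    rw [map_add]; exact Submodule.add_mem _ ha hb

lemma hX_mem {D : DeRham W F} (hD : IsGraded D) (t : Gam W F) {i : ℕ} {a : Base W.K (W.H X)}
    (ha : a ∈ baseSub (W.gr X i)) : hX D X t a ∈ baseSub (W.gr X i) :=
  sB_mem _ (dRs_mem hD _ (sB_mem _ ha))

lemma hX_nat (D : DeRham W F) (t : Gam W F) (f : X ⟶ Y) (y : Base W.K (W.H Y)) :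
    hX D X t (baseMap (W.map f) y) = baseMap (W.map f) (hX D Y t y) := by
  rw [hX_apply, sB_map, dRs_nat, sB_map, hX_apply]

/-- The character. -/
noncomputable def chiX (t : Gam W F) : ℂˣ := Units.map (t.2 : ℂ →* ℂ) (chi t.1)

lemma chiX_val (t : Gam W F) : (chiX t : ℂ) = t.2 (chi t.1 : ℂ) := rfl

lemma hX_twist (D : DeRham W F) (t : Gam W F) {j : ℕ} {c : W.H X} (hc : twist j c ∈ D.dR X) :
    hX D X t (tm 1 c) = (chiX t : ℂ) ^ j • tm 1 c := by
  rw [hX_apply, sB_tm, map_one, dRs_twist D t.1 hc, sB_smul, sB_tm, map_one, map_pow, chiX_val]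

variable (E : IntermediateField W.K ℂ) [Algebra.IsAlgebraic W.K E]

lemma alg_symm (τ : ℂ ≃ₐ[W.K] ℂ) (e : E) : IsAlgebraic W.K (τ (e : ℂ)) :=
  ((Algebra.IsAlgebraic.isAlgebraic e).algHom E.val).algHom (τ : ℂ →ₐ[W.K] ℂ)

/-- The automorphism over `E`. -/
noncomputable def cj (hF : ∀ a : ℂ, IsAlgebraic W.K a → a ∈ F) (t : Gam W F) : ℂ ≃ₐ[E] ℂ :=
  AlgEquiv.ofRingEquiv (f := (t.2.symm.toRingEquiv.trans t.1.1).trans t.2.toRingEquiv) (by
    intro e
    change t.2 (t.1.1 (t.2.symm (e : ℂ))) = (e : ℂ)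
    rw [t.1.2 _ (hF _ (alg_symm E t.2.symm e)), AlgEquiv.apply_symm_apply])

lemma cj_apply (hF : ∀ a : ℂ, IsAlgebraic W.K a → a ∈ F) (t : Gam W F) (r : ℂ) :
    cj E hF t r = t.2 (t.1.1 (t.2.symm r)) := rfl

/-- The semilinear map on the extension of the coefficients of the cohomology with coefficients in
`E`. -/
noncomputable def hE (D : DeRham W F) (X : 𝒱.Obj) (t : Gam W F) :
    HE (WE W E) ℂ X →+* HE (WE W E) ℂ X :=
  (kap W E X).symm.toRingHom.comp ((hX D X t).comp (kap W E X).toRingHom)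

omit [Algebra.IsAlgebraic W.K E] in
lemma hE_apply (D : DeRham W F) (t : Gam W F) (a : HE (WE W E) ℂ X) :
    hE E D X t a = (kap W E X).symm (hX D X t (kap W E X a)) := rfl

/-- The family of semilinear automorphisms of the cohomology with coefficients in `E`, extended to
`ℂ`. -/
noncomputable def actE (hF : ∀ a : ℂ, IsAlgebraic W.K a → a ∈ F) (D : DeRham W F)
    (hD : IsGraded D) (hW : HasLefschetz W) : Act (WE W E) ℂ (Gam W F) where
  σ t := cj E hF t
  χ t := chiX t
  h X t := hE E D X t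
  h_smul X t r a := by
    rw [hE_apply, kap_smul, hX_smul, kap_symm_smul]
    rfl
  h_surj X t := by
    intro v
    obtain ⟨w, hw⟩ := hX_surj D t (kap W E X v)
    refine ⟨(kap W E X).symm w, ?_⟩
    rw [hE_apply, RingEquiv.apply_symm_apply, hw, RingEquiv.symm_apply_apply]
  gr_mem {X} t i c hc := by
    rw [hE_apply, kap_tmul, one_smul]
    exact kap_symm_mem (hX_mem hD t (spanE_le_baseSub (inc_mem hc)))
  nat {X Y} f t y := by
    rw [hE_apply, kap_nat, hX_nat, kap_symm_nat, hE_apply]
  cyc {X j z} hz t := by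
    rw [cl_et, ← kap_symm_tm, hE_apply, RingEquiv.apply_symm_apply,
      hX_twist D t ((drbPred D).cl hz).2, kap_symm_smul]
  deg {X c} hc t := by
    refine et_ind_mem (U := W.gr X (2 * X.dim)) (p := fun c : (WE W E).H X =>
        hE E D X t ((1 : ℂ) ⊗ₜ[(WE W E).K] c) =
          ((chiX t : ℂ) ^ X.dim) • ((1 : ℂ) ⊗ₜ[(WE W E).K] c)) ?_ ?_ ?_ hc
    · rw [TensorProduct.tmul_zero, map_zero, smul_zero]
    · intro x y hx hy
      rw [TensorProduct.tmul_add, map_add, hx, hy, smul_add]
    · intro e c hc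
      have h1 : kap W E X ((1 : ℂ) ⊗ₜ[(WE W E).K] et e c) = (e : ℂ) • tm 1 c := by
        rw [kap_et, smul_tm, one_mul, mul_one]
      rw [hE_apply, h1, hX_smul, hX_twist D t (drb_top D hW hc).2]
      have h2 : t.2 (t.1.1 (t.2.symm (e : ℂ))) = (e : ℂ) := (cj E hF t).commutes e
      rw [h2, smul_comm, kap_symm_smul, ← h1, RingEquiv.symm_apply_apply]

end

end Pool.Agent.H36AC
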