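import Pool.Agent.R920.DB.Defs

/-!
# De Rham-Betti classes with algebraic coefficients: definitions

In the intended use `k` is the field of algebraic numbers, `W` is the cohomology of the complex
manifolds with rational coefficients (`W.K = ℚ`), `F` is the field of algebraic numbers in `ℂ`, and
`D.dR X` is the algebraic de Rham cohomology of `X`. The field `E` of algebraic numbers is the field of
coefficients of the classes.
-/

open CategoryTheory AlgebraicGeometry

universe u v

namespace Pool.Agent.H36AC

open Pool.Agent.H914 Pool.Agent.H914.VarClass Pool.Agent.H914.VarClass.Obj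
  Pool.Agent.H914.WeilCohomology Pool.Agent.Y133.Per

section

variable {K : Type*} [Field K] [Algebra K ℂ] {A : Type*} [Ring A] [Algebra K A]

/-- The linear combinations with coefficients in `E` of the elements of `S`, in the algebra with
complex coefficients. -/
noncomputable def Combs (E : IntermediateField K ℂ) (S : Set A) : Submodule E (Base K A) :=
  Submodule.span E {b | ∃ c ∈ S, b = tm 1 c}

/-- `α` is a linear combination with coefficients in `E` of the elements of `S`. -/
def IsComb (E : IntermediateField K ℂ) (S : Set A) (α : Base K A) : Prop := α ∈ Combs E S

/-- `α` is a linear combination with coefficients in `E` of elements of `U`, and `(2 π i) ^ j α` is in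
`T`. -/
def IsPeriodComb (E : IntermediateField K ℂ) (U : Submodule K A) (T : Set (Base K A)) (j : ℕ)
    (α : Base K A) : Prop :=
  IsComb E (U : Set A) α ∧ twoPiI ^ j • α ∈ T

/-- The dimension over `E` of the space spanned by `T`. -/
noncomputable def dimComb (E : IntermediateField K ℂ) (T : Set (Base K A)) : ℕ :=
  Set.finrank E T

end

variable {k : Type u} [Field k] {𝒱 : VarClass k} {ops : CycleOps 𝒱}
variable {W : WeilCohomology.{u, v} ops} [Algebra W.K ℂ] {F : Subfield ℂ}

/-- The de Rham-Betti classes of codimension `j` with coefficients in `E`: the linear combinations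
`α` with coefficients in `E` of classes of degree `2 j` (with coefficients in `W.K = ℚ`) such that
`(2 π i) ^ j α` lies in the de Rham cohomology. -/
def IsDRBWith (D : DeRham W F) (E : IntermediateField W.K ℂ) (Z : 𝒱.Obj) (j : ℕ)
    (α : Base W.K (W.H Z)) : Prop :=
  IsPeriodComb E (W.gr Z (2 * j)) (D.dR Z) j α

/-- The dimension over `E` of the space spanned by the de Rham-Betti classes with coefficients in `E`
of all codimensions. -/
noncomputable def numWith (D : DeRham W F) (E : IntermediateField W.K ℂ) (Z : 𝒱.Obj) : ℕ :=
  dimComb E {α : Base W.K (W.H Z) | ∃ j, IsDRBWith D E Z j α}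

end Pool.Agent.H36AC
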