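import Pool.Agent.H60ZO.Main
import Pool.Agent.H977R3.CM.Aut
import Pool.Agent.H36AC.Defs

/-!
# Coefficients in a field of algebraic numbers: linear algebra
-/

open scoped TensorProduct

namespace Pool.Agent.H36AC

open Module Pool.Agent.Y133.Per Pool.Agent.R920.DB Pool.Agent.H60ZO

section Fix

variable {K : Type*} [Field K] [Algebra K ℂ]

/-- An algebraic element fixed by all automorphisms over `K` is in `K`. -/
lemma fixed_alg {a : ℂ} (ha : IsAlgebraic K a) (h : ∀ τ : ℂ ≃ₐ[K] ℂ, τ a = a) :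
    ∃ r : K, algebraMap K ℂ r = a := by
  have hc : CharZero K := (algebraMap K ℂ).charZero
  let Kb : IntermediateField K ℂ := algebraicClosure K ℂ
  have : Algebra.IsAlgebraic K Kb := algebraicClosure.isAlgebraic K ℂ
  have : IsAlgClosure K Kb := algebraicClosure.isAlgClosure K ℂ
  have : IsGalois K Kb := inferInstance
  let y : Kb := ⟨a, mem_algebraicClosure_iff.2 ha⟩
  have hy : y ∈ (⊥ : IntermediateField K Kb) := by
    rw [InfiniteGalois.mem_bot_iff_fixed]
    intro g
    obtain ⟨τ, hτ⟩ := Pool.Agent.H977R3.CM.exists_aut (algebraMap Kb ℂ) (g : Kb ≃+* Kb)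
    have hK : ∀ r : K, τ (algebraMap K ℂ r) = algebraMap K ℂ r := by
      intro r
      have h1 := hτ (algebraMap K Kb r)
      have h2 : ((g : Kb ≃+* Kb) (algebraMap K Kb r) : Kb) = algebraMap K Kb r := g.commutes r
      rw [h2] at h1
      exact h1
    have h2 := h (AlgEquiv.ofRingEquiv (f := τ) hK)
    have h3 := hτ y
    change τ (y : ℂ) = ((g y : Kb) : ℂ) at h3
    apply Subtype.ext
    rw [← h3]
    exact h2
  obtain ⟨x, hx⟩ := IntermediateField.mem_bot.1 hy
  refine ⟨x, ?_⟩
  have := congrArg (fun w : Kb => (w : ℂ)) hx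
  exact this

end Fix

section Semi

variable {K : Type*} [Field K] [Algebra K ℂ] {A B : Type*} [Ring A] [Algebra K A]
  [Ring B] [Algebra K B]

/-- The action of an automorphism of `ℂ` on the coefficients. -/
noncomputable def sB (τ : ℂ ≃ₐ[K] ℂ) : Base K A →+* Base K A :=
  ((Algebra.TensorProduct.map (τ : ℂ →ₐ[K] ℂ) (AlgHom.id K A) : ℂ ⊗[K] A →ₐ[K] ℂ ⊗[K] A) :
    ℂ ⊗[K] A →+* ℂ ⊗[K] A)

lemma sB_tm (τ : ℂ ≃ₐ[K] ℂ) (r : ℂ) (c : A) : sB τ (tm r c) = tm (τ r) c :=
  Algebra.TensorProduct.map_tmul _ _ _ _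

lemma sB_smul (τ : ℂ ≃ₐ[K] ℂ) (r : ℂ) (a : Base K A) : sB τ (r • a) = τ r • sB τ a := by
  refine base_ind (p := fun a => sB τ (r • a) = τ r • sB τ a) ?_ ?_ ?_ a
  · rw [smul_zero, map_zero, smul_zero]
  · intro s c
    rw [smul_tm, sB_tm, sB_tm, smul_tm, map_mul]
  · intro a b ha hb
    rw [smul_add, map_add, ha, hb, map_add, smul_add]

lemma sB_symm (τ : ℂ ≃ₐ[K] ℂ) (a : Base K A) : sB τ (sB τ.symm a) = a := by
  refine base_ind (p := fun a => sB τ (sB τ.symm a) = a) ?_ ?_ ?_ a
  · rw [map_zero, map_zero]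
  · intro s c
    rw [sB_tm, sB_tm, AlgEquiv.apply_symm_apply]
  · intro a b ha hb
    rw [map_add, map_add, ha, hb]

lemma sB_symm' (τ : ℂ ≃ₐ[K] ℂ) (a : Base K A) : sB τ.symm (sB τ a) = a := by
  refine base_ind (p := fun a => sB τ.symm (sB τ a) = a) ?_ ?_ ?_ a
  · rw [map_zero, map_zero]
  · intro s c
    rw [sB_tm, sB_tm, AlgEquiv.symm_apply_apply]
  · intro a b ha hb
    rw [map_add, map_add, ha, hb]

lemma sB_map (τ : ℂ ≃ₐ[K] ℂ) (f : A →ₐ[K] B) (a : Base K A) :
    sB τ (baseMap f a) = baseMap f (sB τ a) := by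
  refine base_ind (p := fun a => sB τ (baseMap f a) = baseMap f (sB τ a)) ?_ ?_ ?_ a
  · simp only [map_zero]
  · intro s c
    rw [baseMap_tm, sB_tm, sB_tm, baseMap_tm]
  · intro a b ha hb
    rw [map_add, map_add, ha, hb, map_add, map_add]

lemma sB_mem (τ : ℂ ≃ₐ[K] ℂ) {U : Submodule K A} {a : Base K A} (ha : a ∈ baseSub U) :
    sB τ a ∈ baseSub U := by
  refine baseSub_ind (p := fun a => sB τ a ∈ baseSub U) ?_ ?_ ?_ ha
  · rw [map_zero]; exact Submodule.zero_mem _
  · intro r c hc
    rw [sB_tm]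
    exact tm_mem _ hc
  · intro a b ha hb
    rw [map_add]; exact Submodule.add_mem _ ha hb

/-- The descent. -/
lemma desc {m : ℕ} {b : Fin m → A} (hb : LinearIndependent K b) {s : ℂ} {T : Set (Base K A)}
    (hadd : ∀ a ∈ T, ∀ b ∈ T, a + b ∈ T) (hsm : ∀ r : ℂ, IsAlgebraic K r → ∀ a ∈ T, r • a ∈ T)
    (hT : ∀ c ∈ Submodule.span K (Set.range b), tm s c ∈ T → c = 0) (x : Fin m → ℂ)
    (hx : ∀ i, IsAlgebraic K (x i))
    (hxT : ∀ τ : ℂ ≃ₐ[K] ℂ, ∑ i, τ (x i) • (tm s (b i) : Base K A) ∈ T) : x = 0 := by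
  classical
  have key : ∀ (n : ℕ) (x : Fin m → ℂ), (∀ i, IsAlgebraic K (x i)) →
      (∀ τ : ℂ ≃ₐ[K] ℂ, ∑ i, τ (x i) • (tm s (b i) : Base K A) ∈ T) →
      (Finset.univ.filter fun i => x i ≠ 0).card = n → x = 0 := by
    intro n
    induction n using Nat.strong_induction_on with
    | _ n ih =>
      intro x hx hxT hn
      by_contra hne
      obtain ⟨i₀, hi₀⟩ : ∃ i, x i ≠ 0 := by
        by_contra hcon
        push Not at hcon
        exact hne (funext hcon)
      let y : Fin m → ℂ := fun i => (x i₀)⁻¹ * x i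
      have hy : ∀ i, IsAlgebraic K (y i) := fun i => (hx i₀).inv.mul (hx i)
      have hyT : ∀ τ : ℂ ≃ₐ[K] ℂ, ∑ i, τ (y i) • (tm s (b i) : Base K A) ∈ T := by
        intro τ
        have h1 := hsm (τ (x i₀)⁻¹) ((hx i₀).inv.algHom (τ : ℂ →ₐ[K] ℂ)) _ (hxT τ)
        rw [Finset.smul_sum] at h1
        simp only [smul_smul] at h1
        simpa only [y, map_mul] using h1
      have hy1 : y i₀ = 1 := inv_mul_cancel₀ hi₀
      have hfix : ∀ τ : ℂ ≃ₐ[K] ℂ, ∀ i, τ (y i) = y i := by
        intro τ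
        have h1 := ih ((Finset.univ.filter fun i => τ (y i) - y i ≠ 0).card) ?_
          (fun i => τ (y i) - y i) ?_ ?_ rfl
        · intro i
          exact sub_eq_zero.1 (congrFun h1 i)
        · rw [← hn]
          apply Finset.card_lt_card
          rw [Finset.ssubset_iff_of_subset]
          · refine ⟨i₀, by simpa using hi₀, ?_⟩
            rw [Finset.mem_filter]
            simp [hy1]
          · intro i hi
            simp only [Finset.mem_filter, Finset.mem_univ, true_and] at hi ⊢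
            intro hx0
            apply hi
            simp [y, hx0]
        · intro i
          exact ((hy i).algHom (τ : ℂ →ₐ[K] ℂ)).sub (hy i)
        · intro τ'
          have h1 := hadd _ (hyT (τ.trans τ')) _ (hsm (-1) (isAlgebraic_intCast (-1) |> fun h => by
            simpa using h) _ (hyT τ'))
          rw [Finset.smul_sum, ← Finset.sum_add_distrib] at h1
          have h2 : ∀ i, (τ.trans τ') (y i) • (tm s (b i) : Base K A) +
              (-1 : ℂ) • τ' (y i) • (tm s (b i) : Base K A) =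
              τ' (τ (y i) - y i) • (tm s (b i) : Base K A) := by
            intro i
            rw [neg_one_smul, ← neg_smul, ← add_smul, map_sub, AlgEquiv.trans_apply, sub_eq_add_neg]
          simp only [h2] at h1
          exact h1
      choose r hr using fun i => fixed_alg (hy i) fun τ => hfix τ i
      have h1 := hyT AlgEquiv.refl
      have h2 : ∀ i, (AlgEquiv.refl : ℂ ≃ₐ[K] ℂ) (y i) • (tm s (b i) : Base K A) =
          tm s (r i • b i) := by
        intro i
        have h3 : (AlgEquiv.refl : ℂ ≃ₐ[K] ℂ) (y i) = y i := rfl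
        rw [h3, ← hr, tm_smul]
      have h3 : ∀ S : Finset (Fin m), ∑ i ∈ S, (tm s (r i • b i) : Base K A) =
          tm s (∑ i ∈ S, r i • b i) := by
        intro S
        induction S using Finset.induction_on with
        | empty => rw [Finset.sum_empty, Finset.sum_empty, tm_zero]
        | insert a S ha ih => rw [Finset.sum_insert ha, Finset.sum_insert ha, tm_add, ih]
      simp only [h2] at h1
      rw [h3] at h1
      have h4 := hT _ (Submodule.sum_mem _ fun i _ =>
        Submodule.smul_mem _ _ (Submodule.subset_span ⟨i, rfl⟩)) h1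
      have h5 := Fintype.linearIndependent_iff.1 hb _ h4 i₀
      rw [← hr i₀, h5, map_zero] at hy1
      exact zero_ne_one hy1
  exact key _ x hx hxT rfl

end Semi

section Inc

variable {K : Type*} [Field K] [Algebra K ℂ] (E : IntermediateField K ℂ) {A B : Type*} [Ring A]
  [Algebra K A] [Ring B] [Algebra K B]

/-- The inclusion of the coefficients in `E`. -/
noncomputable def inE : E ⊗[K] A →+* Base K A :=
  (Algebra.TensorProduct.map E.val (AlgHom.id K A) : E ⊗[K] A →ₐ[K] ℂ ⊗[K] A).toRingHom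

lemma inE_tmul (e : E) (c : A) : inE E (e ⊗ₜ[K] c) = tm (e : ℂ) c :=
  Algebra.TensorProduct.map_tmul _ _ _ _

lemma inE_smul (e : E) (z : E ⊗[K] A) : inE E (e • z) = (e : ℂ) • inE E z := by
  induction z using TensorProduct.induction_on with
  | zero => rw [smul_zero, map_zero, smul_zero]
  | add a b ha hb => rw [smul_add, map_add, ha, hb, map_add, smul_add]
  | tmul r c => rw [TensorProduct.smul_tmul', inE_tmul, inE_tmul, smul_tm]; rfl

lemma inE_injective : Function.Injective (inE E (A := A)) := by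
  have h1 := Module.Flat.rTensor_preserves_injective_linearMap (M := A)
    (E.val.toLinearMap) (E.val : E →ₐ[K] ℂ).injective
  intro a b hab
  apply h1
  exact hab

lemma inE_map (f : A →ₐ[K] B) (z : E ⊗[K] A) :
    inE E (Algebra.TensorProduct.map (AlgHom.id E E) f z) = baseMap f (inE E z) := by
  induction z using TensorProduct.induction_on with
  | zero => simp only [map_zero]
  | add a b ha hb => rw [map_add, map_add, ha, hb, map_add, map_add]
  | tmul r c => rw [Algebra.TensorProduct.map_tmul, inE_tmul, inE_tmul, baseMap_tm]; rfl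

/-- The combinations with coefficients in `E` of the elements of `S`. -/
noncomputable abbrev spanE (S : Set A) : Submodule E (Base K A) := Combs E S

variable {E}

lemma tm_spanE {S : Set A} (e : E) {c : A} (hc : c ∈ S) : (tm (e : ℂ) c : Base K A) ∈ spanE E S := by
  have h1 : (tm (e : ℂ) c : Base K A) = e • tm 1 c := by
    have h2 : e • (tm 1 c : Base K A) = (e : ℂ) • (tm 1 c : Base K A) := rfl
    rw [h2, smul_tm, mul_one]
  rw [h1]
  exact Submodule.smul_mem _ _ (Submodule.subset_span ⟨c, hc, rfl⟩)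

lemma inE_mem_spanE {U : Submodule K A} {z : E ⊗[K] A} (hz : z ∈ U.baseChange E) :
    inE E z ∈ spanE E (U : Set A) := by
  refine Pool.Agent.H914.base_induction (P := fun z => inE E z ∈ spanE E (U : Set A)) ?_ ?_ ?_ hz
  · rw [map_zero]; exact Submodule.zero_mem _
  · intro x y hx hy; rw [map_add]; exact Submodule.add_mem _ hx hy
  · intro l a ha
    rw [inE_tmul]
    exact tm_spanE l ha

lemma spanE_ind {S : Set A} {p : Base K A → Prop} (h0 : p 0) (h1 : ∀ (e : E), ∀ c ∈ S, p (tm (e : ℂ) c))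
    (h2 : ∀ a b, p a → p b → p (a + b)) {v : Base K A} (hv : v ∈ spanE E S) : p v := by
  have key : ∀ e : E, p (e • v) := by
    unfold spanE Combs at hv
    induction hv using Submodule.span_induction with
    | mem x hx =>
      obtain ⟨c, hc, rfl⟩ := hx
      intro e
      have h2 : e • (tm 1 c : Base K A) = (e : ℂ) • (tm 1 c : Base K A) := rfl
      rw [h2, smul_tm, mul_one]
      exact h1 e c hc
    | zero => intro e; rw [smul_zero]; exact h0
    | add x y _ _ hx hy => intro e; rw [smul_add]; exact h2 _ _ (hx e) (hy e)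
    | smul r x _ hx => intro e; rw [smul_smul]; exact hx _
  have := key 1
  rwa [one_smul] at this

lemma exists_inE {U : Submodule K A} {v : Base K A} (hv : v ∈ spanE E (U : Set A)) :
    ∃ z ∈ U.baseChange E, inE E z = v := by
  refine spanE_ind (p := fun v => ∃ z ∈ U.baseChange E, inE E z = v) ?_ ?_ ?_ hv
  · exact ⟨0, Submodule.zero_mem _, map_zero _⟩
  · intro e c hc
    exact ⟨e ⊗ₜ[K] c, Submodule.tmul_mem_baseChange_of_mem e hc, inE_tmul E e c⟩
  · rintro _ _ ⟨z, hz, rfl⟩ ⟨z', hz', rfl⟩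
    exact ⟨z + z', Submodule.add_mem _ hz hz', map_add _ _ _⟩

lemma mem_iff_spanE {U : Submodule K A} {z : E ⊗[K] A} :
    z ∈ U.baseChange E ↔ inE E z ∈ spanE E (U : Set A) := by
  constructor
  · exact inE_mem_spanE
  · intro h
    obtain ⟨z', hz', h1⟩ := exists_inE h
    rwa [inE_injective E h1] at hz'

/-- The intersection of the conjugate conditions is defined over `K`. -/
theorem mem_span_of_conj [Algebra.IsAlgebraic K E] [FiniteDimensional K A] {U : Submodule K A} {s : ℂ}
    {T : Set (Base K A)} (hz : (0 : Base K A) ∈ T) (hadd : ∀ a ∈ T, ∀ b ∈ T, a + b ∈ T)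
    (hsm : ∀ r : ℂ, IsAlgebraic K r → ∀ a ∈ T, r • a ∈ T) {v : Base K A}
    (hv : v ∈ spanE E (U : Set A)) (hvT : ∀ τ : ℂ ≃ₐ[K] ℂ, s • sB τ v ∈ T) :
    v ∈ spanE E {c | c ∈ U ∧ tm s c ∈ T} := by
  -- the subspace
  have hsc : ∀ r : K, ∀ a ∈ T, algebraMap K ℂ r • a ∈ T := fun r a ha =>
    hsm _ (isAlgebraic_algebraMap r) a ha
  let Q : Submodule K A :=
    { carrier := {c | c ∈ U ∧ tm s c ∈ T}
      add_mem' := fun {a b} ha hb => ⟨U.add_mem ha.1 hb.1, by
        rw [tm_add]; exact hadd _ ha.2 _ hb.2⟩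
      zero_mem' := ⟨U.zero_mem, by rw [tm_zero]; exact hz⟩
      smul_mem' := fun r a ha => ⟨U.smul_mem r ha.1, by
        rw [tm_smul]; exact hsc _ _ ha.2⟩ }
  have hQU : Q ≤ U := fun c hc => hc.1
  obtain ⟨Q'', hQ''⟩ := Q.exists_isCompl
  let Q' : Submodule K A := Q'' ⊓ U
  have hsup : Q ⊔ Q' = U := by
    rw [← sup_inf_assoc_of_le Q'' hQU, hQ''.sup_eq_top, top_inf_eq]
  have hinf : ∀ c ∈ Q, c ∈ Q' → c = 0 := by
    intro c h1 h2
    have h3 := hQ''.disjoint.le_bot ⟨h1, h2.1⟩
    simpa using h3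
  let b₀ : Basis (Fin (finrank K Q')) K Q' := Module.finBasis K Q'
  let b : Fin (finrank K Q') → A := fun i => (b₀ i : A)
  have hbli : LinearIndependent K b := b₀.linearIndependent.map' Q'.subtype Q'.ker_subtype
  have hbspan : ∀ c ∈ Submodule.span K (Set.range b), c ∈ Q' := by
    intro c hc
    have : Submodule.span K (Set.range b) ≤ Q' := by
      apply Submodule.span_le.2
      rintro _ ⟨i, rfl⟩
      exact (b₀ i).2
    exact this hc
  have hdec : ∃ w ∈ spanE E (Q : Set A), ∃ x : Fin (finrank K Q') → E,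
      v = w + ∑ i, (x i : ℂ) • (tm 1 (b i) : Base K A) := by
    refine spanE_ind (p := fun v => ∃ w ∈ spanE E (Q : Set A), ∃ x : Fin (finrank K Q') → E,
      v = w + ∑ i, (x i : ℂ) • (tm 1 (b i) : Base K A)) ?_ ?_ ?_ hv
    · exact ⟨0, Submodule.zero_mem _, 0, by simp⟩
    · intro e c hc
      have hc' : c ∈ Q ⊔ Q' := by rw [hsup]; exact hc
      obtain ⟨q, hq, q', hq', rfl⟩ := Submodule.mem_sup.1 hc'
      refine ⟨tm (e : ℂ) q, tm_spanE e hq, fun i => e * algebraMap K E (b₀.repr ⟨q', hq'⟩ i), ?_⟩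
      rw [tm_add]
      congr 1
      have h1 : q' = ∑ i, b₀.repr ⟨q', hq'⟩ i • b i := by
        have h2 := congrArg Subtype.val (b₀.sum_repr ⟨q', hq'⟩)
        simp only [AddSubmonoidClass.coe_finsetSum, Submodule.coe_smul] at h2
        exact h2.symm
      have h3 : ∀ S : Finset (Fin (finrank K Q')),
          (tm (e : ℂ) (∑ i ∈ S, b₀.repr ⟨q', hq'⟩ i • b i) : Base K A) =
          ∑ i ∈ S, ((e * algebraMap K E (b₀.repr ⟨q', hq'⟩ i) : E) : ℂ) •
            (tm 1 (b i) : Base K A) := by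
        intro S
        induction S using Finset.induction_on with
        | empty => rw [Finset.sum_empty, Finset.sum_empty, tm_zero]
        | insert a S ha ih =>
          rw [Finset.sum_insert ha, Finset.sum_insert ha, tm_add, ih]
          congr 1
          rw [tm_smul, smul_tm, smul_tm, mul_one]
          congr 1
          rw [mul_comm]
          rfl
      conv_lhs => rw [h1]
      exact h3 _
    · rintro _ _ ⟨w, hw, x, rfl⟩ ⟨w', hw', x', rfl⟩
      refine ⟨w + w', Submodule.add_mem _ hw hw', x + x', ?_⟩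
      have h1 : ∀ i, (((x + x') i : E) : ℂ) • (tm 1 (b i) : Base K A) =
          (x i : ℂ) • tm 1 (b i) + (x' i : ℂ) • tm 1 (b i) := by
        intro i
        rw [← add_smul]
        rfl
      simp only [h1, Finset.sum_add_distrib]
      abel
  obtain ⟨w, hw, x, hvw⟩ := hdec
  have halg : ∀ e : E, IsAlgebraic K (e : ℂ) := fun e =>
    (Algebra.IsAlgebraic.isAlgebraic e).algHom E.val
  have hwT : ∀ τ : ℂ ≃ₐ[K] ℂ, s • sB τ w ∈ T := by
    intro τ
    refine spanE_ind (p := fun w => s • sB τ w ∈ T) ?_ ?_ ?_ hw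
    · rw [map_zero, smul_zero]; exact hz
    · intro e c hc
      have h1 : s • sB τ (tm (e : ℂ) c : Base K A) = τ e • tm s c := by
        rw [sB_tm, smul_tm, smul_tm, mul_comm]
      rw [h1]
      exact hsm _ ((halg e).algHom (τ : ℂ →ₐ[K] ℂ)) _ hc.2
    · intro a b ha hb
      rw [map_add, smul_add]
      exact hadd _ ha _ hb
  have hx0 : (fun i => (x i : ℂ)) = 0 := by
    refine desc hbli hadd hsm (s := s) ?_ _ (fun i => halg _) fun τ => ?_
    · intro c hc hcT
      have h1 := hbspan c hc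
      exact hinf c ⟨h1.2, hcT⟩ h1
    · have h1 := hadd _ (hvT τ) _ (hsm (-1) (isAlgebraic_intCast (-1) |> fun h => by
            simpa using h) _ (hwT τ))
      rw [hvw, map_add, smul_add, neg_one_smul, add_comm (s • sB τ w), add_neg_cancel_right,
        map_sum, Finset.smul_sum] at h1
      have h2 : ∀ i, s • sB τ ((x i : ℂ) • (tm 1 (b i) : Base K A)) =
          τ (x i : ℂ) • (tm s (b i) : Base K A) := by
        intro i
        rw [sB_smul, sB_tm, map_one, smul_smul, smul_tm, smul_tm, mul_one, mul_comm]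
      simp only [h2] at h1
      exact h1
  have h3 : ∑ i, (x i : ℂ) • (tm 1 (b i) : Base K A) = 0 := by
    apply Finset.sum_eq_zero
    intro i _
    have := congrFun hx0 i
    simp only [Pi.zero_apply] at this
    rw [this, zero_smul]
  rw [hvw, h3, add_zero]
  exact hw

end Inc

end Pool.Agent.H36AC
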