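import Pool.Agent.H36AC.Pred

/-!
# The zero-one law for classes with algebraic coefficients
-/

open CategoryTheory AlgebraicGeometry Filter Topology

open scoped TensorProduct ENNReal

universe u

namespace Pool.Agent.H36AC

open Module
open Pool.Agent.H914 Pool.Agent.H914.VarClass Pool.Agent.H914.VarClass.Obj
  Pool.Agent.H914.WeilCohomology
open Pool.Agent.Y133.Half (ClassPred pw Sys HasIndex dimBy genOver)
open Pool.Agent.Y133.Per Pool.Agent.R920.DB Pool.Agent.H60ZO Pool.Agent.R920.MT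
open Pool.Agent.Y133.Hdg (HodgeStr IsHodge hodgePred isHodge_iff)

variable {k : Type u} [Field k] {𝒱 : VarClass k} {ops : CycleOps 𝒱}

lemma op_mono {W : WeilCohomology.{u, 0} ops} {S T : Sys W} (h : ∀ X, S.C X ≤ T.C X)
    (X Y : 𝒱.Obj) : S.Op X Y ≤ T.Op X Y := by
  intro f hf
  obtain ⟨c, hc, rfl⟩ := Sys.mem_Op.1 hf
  exact Sys.mem_Op.2 ⟨c, h _ hc, rfl⟩

lemma genS_mono {W : WeilCohomology.{u, 0} ops} {S T : Sys W} (h : ∀ X, S.C X ≤ T.C X)
    (X : 𝒱.Obj) {r : ℕ} (c : Fin r → Σ n, W.H (pw X n)) (n : ℕ) :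
    S.genS X c n ≤ T.genS X c n := by
  apply sup_le_sup (h _)
  apply iSup_mono
  intro i
  exact Submodule.map_mono (op_mono h _ _)

section

variable {W : WeilCohomology.{u, 0} ops} [Algebra W.K ℂ] {F : Subfield ℂ}
  {X Y Z : 𝒱.Obj} (D : DeRham W F) (E : IntermediateField W.K ℂ)

lemma et_zero (e : E) : (et e (0 : W.H Z)) = 0 := TensorProduct.tmul_zero _ _

lemma et_add (e : E) (c d : W.H Z) : et e (c + d) = et e c + et e d :=
  TensorProduct.tmul_add _ _ _

variable {P : ClassPred W}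

lemma base_ind' {q : (WE W E).H Z → Prop} (h0 : q 0) (hadd : ∀ a b, q a → q b → q (a + b))
    (h : ∀ (e : E) j c, P.P Z j c → q (et e c)) {x : (WE W E).H Z}
    (hx : x ∈ (P.sys.base E).C Z) : q x := by
  refine et_ind_mem (U := P.sys.C Z) (p := q) h0 hadd ?_ hx
  intro e c hc
  refine ClassPred.sp_ind (Q := P) (q := fun c => q (et e c)) ?_ ?_ ?_ hc
  · intro j x hx
    exact h e j x hx
  · rw [et_zero]; exact h0
  · intro a b ha hb
    rw [et_add]; exact hadd _ _ ha hb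

variable {E} in
lemma et_predE (hE : ∀ e : E, (e : ℂ) ∈ F) (e : E) {j : ℕ} {c : W.H Z} (hc : IsDRB D Z j c) :
    (predE E D hE).P Z j (et e c) := by
  refine ⟨et_mem e hc.1, ?_⟩
  have h2 : twoPiI ^ j • (tm (e : ℂ) c : Base W.K (W.H Z)) = (e : ℂ) • twist j c := by
    rw [twist, smul_tm, smul_tm, mul_comm]
  rw [inc_et, h2]
  exact (D.form Z).smul _ (hE e) _ hc.2

end

variable {W : WeilCohomology.{u, 0} ops} [Algebra W.K ℝ] [Algebra W.K ℂ] {F : Subfield ℂ}
  {X Y Z : 𝒱.Obj} (Ψ : HodgeStr W) (D : DeRham W F) (E : IntermediateField W.K ℂ)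
  [Algebra.IsAlgebraic W.K E]

/-- The system of the combinations of the classes which are Hodge and de Rham-Betti. -/
noncomputable def hdE : Sys (WE W E) := (hdPred Ψ D).sys.base E

lemma hdE_le_fin (hF : ∀ a : ℂ, IsAlgebraic W.K a → a ∈ F) (hD : IsGraded D)
    (hW : HasLefschetz W) (hE : ∀ e : E, (e : ℂ) ∈ F) (Z : 𝒱.Obj) :
    (hdE Ψ D E).C Z ≤ (finPred (actE E hF D hD hW) (predE E D hE)).sys.C Z := by
  intro x hx
  refine base_ind' E (P := hdPred Ψ D) (q := fun x =>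
    x ∈ (finPred (actE E hF D hD hW) (predE E D hE)).sys.C Z) ?_ ?_ ?_ hx
  · exact Submodule.zero_mem _
  · intro a b ha hb
    exact Submodule.add_mem _ ha hb
  · intro e j c hc
    exact ClassPred.sp_of (j := j) ⟨et_predE D hE e hc.2, finOrb_rat hF hc.2 e⟩

/-- **The zero-one law**, first form. -/
theorem lawE (hF : ∀ a : ℂ, IsAlgebraic W.K a → a ∈ F) (hF' : ∀ a : ℂ, IsAlgebraic F a → a ∈ F)
    (hD : IsGraded D) (hE : ∀ e : E, (e : ℂ) ∈ F) (X : 𝒱.Obj) [Nontrivial (W.H X)] :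
    (∀ n j (z : (WE W E).H (pw X n)), (predE E D hE).P (pw X n) j z → ∀ τ : ℂ ≃ₐ[W.K] ℂ,
      twoPiI ^ j • sB τ (inc (pw X n) z) ∈ D.dR (pw X n)) ∨
    HasIndex (fun n => finrank (WE W E).K ((predE E D hE).sys.C (pw X n)))
      (fun n => dimBy W (hdPred Ψ D).P (pw X n)) ⊤ := by
  have hW : HasLefschetz W := hasLefschetz Ψ
  have hnt : Nontrivial ((WE W E).H X) := Pool.Agent.Y129.nontrivial_base E
  set R := predE E D hE with hR
  set S := hdE Ψ D E with hS
  set Q := finPred (actE E hF D hD hW) R with hQ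
  have hSQ : ∀ Z, S.C Z ≤ Q.sys.C Z := fun Z => hdE_le_fin Ψ D E hF hD hW hE Z
  have hQR : ∀ Z, Q.sys.C Z ≤ R.sys.C Z := fun Z =>
    ClassPred.sys_le (Q := Q) (R := R) (fun h => h.1) Z
  have hSR : ∀ Z, S.C Z ≤ R.sys.C Z := fun Z => (hSQ Z).trans (hQR Z)
  have hnd : ∀ n, S.Nondeg (pw X n) := fun n => (hd_nondeg Ψ D hD (pw X n)).base E
  have hst := Sys.stab_of_le (S := S) (T := R.sys) hSR (X := X)
  obtain ⟨N, -, h2, -, -⟩ := Sys.stab_index hnd hst fun n => hSR _
  by_cases hN : N = ⊤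
  · right
    rw [hN] at h2
    refine h2.congr fun n => ?_
    have h3 : finrank (WE W E).K (S.C (pw X n)) = dimBy W (hdPred Ψ D).P (pw X n) :=
      (hdPred Ψ D).sys.finrank_base E (pw X n)
    rw [h3]
  · left
    obtain ⟨r, c, -, hc, hG⟩ := Sys.ind_generators hnd hst (fun n => hSR _) h2 hN
      (fun n => {c | ∃ j, R.P (pw X n) j c}) fun n => rfl
    choose jj hjj using hc
    intro n j z hz τ
    have hfin := all_fin (A := actE E hF D hD hW) (R := R) (jj := jj) hjj (fun n j z hz => by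
      apply ClassPred.genS_le_genOver
      refine genS_mono hSQ X c n ?_
      rw [← hG n]
      exact ClassPred.sp_of hz) n j z hz
    exact conj_of_finOrb hF hF' hfin τ

end Pool.Agent.H36AC
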