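import Pool.Agent.H36AC.Law

/-!
# The zero-one law for classes with algebraic coefficients: main results
-/

open CategoryTheory AlgebraicGeometry Filter Topology

open scoped TensorProduct ENNReal

universe u

namespace Pool.Agent.H36AC

open Module
open Pool.Agent.H914 Pool.Agent.H914.VarClass Pool.Agent.H914.VarClass.Obj
  Pool.Agent.H914.WeilCohomology
open Pool.Agent.Y133.Half (ClassPred pw Sys HasIndex dimBy genOver)
open Pool.Agent.Y133.Per Pool.Agent.R920.DB Pool.Agent.H60ZO Pool.Agent.R920.MT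
open Pool.Agent.Y133.Hdg (HodgeStr IsHodge hodgePred isHodge_iff)

variable {k : Type u} [Field k] {𝒱 : VarClass k} {ops : CycleOps 𝒱}

section

variable {W : WeilCohomology.{u, 0} ops} [Algebra W.K ℂ] {F : Subfield ℂ}
  {X Y Z : 𝒱.Obj} (D : DeRham W F) (E : IntermediateField W.K ℂ)

/-- The inclusion as a linear map. -/
noncomputable def incL (Z : 𝒱.Obj) : E ⊗[W.K] W.H Z →ₗ[E] Base W.K (W.H Z) where
  toFun := inE E
  map_add' := map_add _
  map_smul' e z := inE_smul E e z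

lemma incL_apply (z : E ⊗[W.K] W.H Z) : incL E Z z = inc Z (z : (WE W E).H Z) := rfl

variable {D E} in
lemma drbWith_iff {hE : ∀ e : E, (e : ℂ) ∈ F} {j : ℕ} {α : Base W.K (W.H Z)} :
    IsDRBWith D E Z j α ↔ ∃ z : (WE W E).H Z, (predE E D hE).P Z j z ∧ inc Z z = α := by
  constructor
  · rintro ⟨h1, h2⟩
    obtain ⟨z, hz, rfl⟩ := exists_inE h1
    exact ⟨z, ⟨hz, h2⟩, rfl⟩
  · rintro ⟨z, ⟨h1, h2⟩, rfl⟩
    exact ⟨inE_mem_spanE h1, h2⟩

lemma numWith_eq (hE : ∀ e : E, (e : ℂ) ∈ F) (Z : 𝒱.Obj) :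
    numWith D E Z = finrank (WE W E).K ((predE E D hE).sys.C Z) := by
  have h1 : Submodule.span E {α : Base W.K (W.H Z) | ∃ j, IsDRBWith D E Z j α} =
      Submodule.map (incL E Z) (Submodule.span E
        {z : E ⊗[W.K] W.H Z | ∃ j, (predE E D hE).P Z j (z : (WE W E).H Z)}) := by
    rw [Submodule.map_span]
    congr 1
    ext α
    constructor
    · rintro ⟨j, hj⟩
      obtain ⟨z, hz, rfl⟩ := (drbWith_iff (hE := hE)).1 hj
      exact ⟨z, ⟨j, hz⟩, rfl⟩
    · rintro ⟨z, ⟨j, hz⟩, rfl⟩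
      exact ⟨j, (drbWith_iff (hE := hE)).2 ⟨z, hz, rfl⟩⟩
  unfold numWith dimComb Set.finrank
  rw [h1]
  exact (Submodule.equivMapOfInjective (incL E Z) (inE_injective E) _).finrank_eq.symm

variable {P : ClassPred W}

variable {E} in
lemma base_le_predE (hE : ∀ e : E, (e : ℂ) ∈ F)
    (hP : ∀ {Z : 𝒱.Obj} {j : ℕ} {c : W.H Z}, P.P Z j c → IsDRB D Z j c) (Z : 𝒱.Obj) :
    (P.sys.base E).C Z ≤ (predE E D hE).sys.C Z := by
  intro x hx
  refine base_ind' E (P := P) (q := fun x => x ∈ (predE E D hE).sys.C Z) ?_ ?_ ?_ hx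
  · exact Submodule.zero_mem _
  · intro a b ha hb
    exact Submodule.add_mem _ ha hb
  · intro e j c hc
    exact ClassPred.sp_of (j := j) (et_predE D hE e (hP hc))

lemma dimBy_le (hE : ∀ e : E, (e : ℂ) ∈ F)
    (hP : ∀ {Z : 𝒱.Obj} {j : ℕ} {c : W.H Z}, P.P Z j c → IsDRB D Z j c) (Z : 𝒱.Obj) :
    dimBy W P.P Z ≤ numWith D E Z := by
  rw [numWith_eq D E hE]
  have h1 : finrank (WE W E).K ((P.sys.base E).C Z) = dimBy W P.P Z := P.sys.finrank_base E Z
  rw [← h1]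
  exact Submodule.finrank_mono (base_le_predE D hE hP Z)

lemma dimBy_eq_of_combs (hE : ∀ e : E, (e : ℂ) ∈ F)
    (hP : ∀ {Z : 𝒱.Obj} {j : ℕ} {c : W.H Z}, P.P Z j c → IsDRB D Z j c) (Z : 𝒱.Obj)
    (h : ∀ j α, IsDRBWith D E Z j α → α ∈ Combs E {c | P.P Z j c}) :
    dimBy W P.P Z = numWith D E Z := by
  apply le_antisymm (dimBy_le D E hE hP Z)
  rw [numWith_eq D E hE]
  have h1 : finrank (WE W E).K ((P.sys.base E).C Z) = dimBy W P.P Z := P.sys.finrank_base E Z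
  rw [← h1]
  apply Submodule.finrank_mono
  intro z hz
  refine ClassPred.sp_ind (Q := predE E D hE) (q := fun z => z ∈ (P.sys.base E).C Z) ?_ ?_ ?_ hz
  · intro j x hx
    have h2 := h j _ ((drbWith_iff (hE := hE)).2 ⟨x, hx, rfl⟩)
    have h3 : inc Z x ∈ Combs E (P.sys.C Z : Set (W.H Z)) := by
      unfold Combs at h2 ⊢
      refine Submodule.span_mono ?_ h2
      rintro _ ⟨c, hc, rfl⟩
      exact ⟨c, ClassPred.sp_of hc, rfl⟩
    exact (mem_iff_spanE (E := E) (U := P.sys.C Z)).2 h3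
  · exact Submodule.zero_mem _
  · intro a b ha hb
    exact Submodule.add_mem _ ha hb

lemma numWith_pos (hE : ∀ e : E, (e : ℂ) ∈ F) (X : 𝒱.Obj) [Nontrivial (W.H X)] (n : ℕ) :
    0 < numWith D E (pw X n) :=
  (dimBy_pos (drbPred D) X n).trans_le (dimBy_le D E hE (P := drbPred D) (fun h => h) _)

end

variable {W : WeilCohomology.{u, 0} ops} [Algebra W.K ℝ] [Algebra W.K ℂ] {F : Subfield ℂ}
  {X Y Z : 𝒱.Obj} (Ψ : HodgeStr W) (D : DeRham W F) (E : IntermediateField W.K ℂ)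
  [Algebra.IsAlgebraic W.K E]

lemma tendsto_of_le' {a b b' : ℕ → ℕ} (h : ∀ n, b n ≤ b' n) (hb : ∀ n, 0 < b n)
    (h1 : Tendsto (fun n => (a n : ℝ) / b n) atTop (𝓝 0)) :
    Tendsto (fun n => (a n : ℝ) / b' n) atTop (𝓝 0) := by
  refine squeeze_zero (fun n => by positivity) (fun n => ?_) h1
  have h2 : (b n : ℝ) ≤ b' n := by exact_mod_cast h n
  have h3 : (0 : ℝ) < b n := by exact_mod_cast hb n
  gcongr

/-- The main step. -/
theorem combs_both (hF : ∀ a : ℂ, IsAlgebraic W.K a → a ∈ F)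
    (hF' : ∀ a : ℂ, IsAlgebraic F a → a ∈ F) (hD : IsGraded D) (X : 𝒱.Obj) [Nontrivial (W.H X)]
    (h : ¬ Tendsto (fun n => (dimBy W (hdPred Ψ D).P (pw X n) : ℝ) / numWith D E (pw X n))
      atTop (𝓝 0)) (n j : ℕ) (α : Base W.K (W.H (pw X n))) (hα : IsDRBWith D E (pw X n) j α) :
    α ∈ Combs E {c | IsHodge Ψ (pw X n) j c ∧ IsDRB D (pw X n) j c} := by
  have hE : ∀ e : E, (e : ℂ) ∈ F := fun e =>
    hF _ ((Algebra.IsAlgebraic.isAlgebraic e).algHom E.val)
  -- the de Rham-Betti classes are Hodge classes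
  have hH : ∀ n j c, IsDRB D (pw X n) j c → IsHodge Ψ (pw X n) j c := by
    refine (law_drb Ψ D hD X).resolve_right fun h1 => h ?_
    exact tendsto_of_le' (fun n => dimBy_le D E hE (P := drbPred D) (fun h => h) _)
      (fun n => dimBy_pos (drbPred D) X n) h1
  have h1 := (lawE Ψ D E hF hF' hD hE X).resolve_right fun h1 => h (by
    have h2 := tendsto_zero_of_index h1
    simp only [← numWith_eq D E hE] at h2
    exact h2)
  obtain ⟨z, hz, rfl⟩ := (drbWith_iff (hE := hE)).1 hα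
  have h2 := h1 n j z hz
  have h3 := mem_span_of_conj (E := E) (U := W.gr (pw X n) (2 * j)) (s := twoPiI ^ j)
    (T := D.dR (pw X n)) (D.form _).zero (D.form _).add
    (fun r hr a ha => (D.form _).smul r (hF r hr) a ha) (v := inc (pw X n) z) hα.1 h2
  unfold spanE Combs at h3
  unfold Combs
  refine Submodule.span_mono ?_ h3
  rintro _ ⟨c, hc, rfl⟩
  exact ⟨c, ⟨hH n j c hc, hc⟩, rfl⟩

theorem main (hF : ∀ a : ℂ, IsAlgebraic W.K a → a ∈ F)
    (hF' : ∀ a : ℂ, IsAlgebraic F a → a ∈ F) (hD : IsGraded D) (X : 𝒱.Obj)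
    [Nontrivial (W.H X)] :
    ((∀ n j α, IsDRBWith D E (pw X n) j α →
        α ∈ Combs E {c | IsHodge Ψ (pw X n) j c ∧ IsDRB D (pw X n) j c}) ↔
      ¬ Tendsto (fun n => (dimBy W (fun Z j c => IsHodge Ψ Z j c ∧ IsDRB D Z j c) (pw X n) : ℝ) /
        numWith D E (pw X n)) atTop (𝓝 0)) ∧
    (¬ Tendsto (fun n => (dimBy W (IsMotivated W) (pw X n) : ℝ) /
        numWith D E (pw X n)) atTop (𝓝 0) →
      ∀ n j α, IsDRBWith D E (pw X n) j α →
        α ∈ Combs E {c | IsHodge Ψ (pw X n) j c ∧ IsDRB D (pw X n) j c}) ∧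
    ((∀ n j c, IsHodge Ψ (pw X n) j c → IsMotivated W (pw X n) j c) →
      ((∀ n j α, IsDRBWith D E (pw X n) j α → α ∈ Combs E {c | IsMotivated W (pw X n) j c}) ↔
        ¬ Tendsto (fun n => (dimBy W (IsMotivated W) (pw X n) : ℝ) /
          numWith D E (pw X n)) atTop (𝓝 0))) := by
  have hE : ∀ e : E, (e : ℂ) ∈ F := fun e =>
    hF _ ((Algebra.IsAlgebraic.isAlgebraic e).algHom E.val)
  have hle := fun n => mot_le Ψ D hD (pw X n)
  have m1 : ¬ Tendsto (fun n => (dimBy W (IsMotivated W) (pw X n) : ℝ) /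
        numWith D E (pw X n)) atTop (𝓝 0) →
      ∀ n j α, IsDRBWith D E (pw X n) j α →
        α ∈ Combs E {c | IsHodge Ψ (pw X n) j c ∧ IsDRB D (pw X n) j c} := fun h =>
    combs_both Ψ D E hF hF' hD X fun h1 => h (tendsto_of_le hle h1)
  refine ⟨⟨fun h => ?_, combs_both Ψ D E hF hF' hD X⟩, m1, fun hHM => ⟨fun h => ?_,
    fun h n j α hα => ?_⟩⟩
  · exact not_tendsto_of_eq (fun n => dimBy_eq_of_combs D E hE (P := hdPred Ψ D)
      (fun h => h.2) _ (h n)) fun n => numWith_pos D E hE X n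
  · exact not_tendsto_of_eq (fun n => dimBy_eq_of_combs D E hE (P := motPred W)
      (fun h => mot_drb hD h) _ (h n)) fun n => numWith_pos D E hE X n
  · have h2 := m1 h n j α hα
    unfold Combs at h2 ⊢
    refine Submodule.span_mono ?_ h2
    rintro _ ⟨c, hc, rfl⟩
    exact ⟨c, hHM n j c hc.1, rfl⟩

end Pool.Agent.H36AC
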