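import Pool.Agent.H36AC.Act

/-!
# De Rham-Betti classes with algebraic coefficients
-/

open CategoryTheory AlgebraicGeometry Filter Topology

open scoped TensorProduct ENNReal

universe u

namespace Pool.Agent.H36AC

open Module
open Pool.Agent.H914 Pool.Agent.H914.VarClass Pool.Agent.H914.VarClass.Obj
  Pool.Agent.H914.WeilCohomology
open Pool.Agent.Y133.Half (ClassPred pw Sys)
open Pool.Agent.Y133.Per Pool.Agent.R920.DB Pool.Agent.H60ZO

variable {k : Type u} [Field k] {𝒱 : VarClass k} {ops : CycleOps 𝒱}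
variable {W : WeilCohomology.{u, 0} ops} [Algebra W.K ℂ] {F : Subfield ℂ} {X Y Z : 𝒱.Obj}

/-- An element with finitely many conjugates is in the de Rham cohomology. -/
lemma mem_dR_of_finite (D : DeRham W F) (hF : ∀ a : ℂ, IsAlgebraic F a → a ∈ F)
    {v : Base W.K (W.H X)} (h : (Set.range fun g : AutF F => dRs D X g v).Finite) :
    v ∈ D.dR X := by
  have hco : ∀ (g : AutF F) i, (dRb D X).repr (dRs D X g v) i = g.1 ((dRb D X).repr v i) := by
    intro g i
    rw [dRs, semi_apply, map_sum, Finsupp.finsetSum_apply, Finset.sum_eq_single i]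
    · rw [map_smul, Basis.repr_self, Finsupp.smul_apply, Finsupp.single_eq_same, smul_eq_mul,
        mul_one]
    · intro l _ hl
      rw [map_smul, Basis.repr_self, Finsupp.smul_apply,
        Finsupp.single_eq_of_ne (by simpa using hl.symm), smul_zero]
    · intro h; exact absurd (Finset.mem_univ i) h
  have h1 : ∀ i, (dRb D X).repr v i ∈ F := by
    intro i
    apply hF
    apply algebraic_of_finite
    apply (h.image fun v => (dRb D X).repr v i).subset
    rintro _ ⟨g, rfl⟩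
    exact ⟨_, ⟨g, rfl⟩, hco g i⟩
  rw [← (dRb D X).sum_repr v]
  have h2 : ∀ s : Finset (Fin (finrank ℂ (Base W.K (W.H X)))),
      ∑ i ∈ s, (dRb D X).repr v i • (dRb D X) i ∈ D.dR X := by
    intro s
    induction s using Finset.induction_on with
    | empty => exact (D.form X).zero
    | insert a s ha ih =>
      rw [Finset.sum_insert ha]
      exact (D.form X).add _ ((D.form X).smul _ (h1 a) _ (dRb_mem D X a)) _ ih
  exact h2 _

variable (E : IntermediateField W.K ℂ)

lemma tr_push_inc (f : X ⟶ Y) (a : (WE W E).H X) (b : Base W.K (W.H Y)) :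
    baseTr (W.tr Y) (inc Y ((WE W E).push f a) * b) =
      baseTr (W.tr X) (inc X a * baseMap (W.map f) b) := by
  refine et_ind (p := fun a => baseTr (W.tr Y) (inc Y ((WE W E).push f a) * b) =
      baseTr (W.tr X) (inc X a * baseMap (W.map f) b)) ?_ ?_ ?_ a
  · simp only [map_zero, zero_mul]
  · intro x y hx hy
    simp only [map_add, add_mul, hx, hy]
  · intro e c
    rw [push_et, inc_et, inc_et, tr_pushC]

/-- The de Rham-Betti classes with coefficients in `E`. -/
noncomputable def predE (D : DeRham W F) (hE : ∀ e : E, (e : ℂ) ∈ F) : ClassPred (WE W E) where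
  P X j c := c ∈ (WE W E).gr X (2 * j) ∧ twoPiI ^ j • inc X c ∈ D.dR X
  gr h := h.1
  zero {X j} := ⟨Submodule.zero_mem _, by
    rw [map_zero, smul_zero]; exact (D.form X).zero⟩
  add {X j a b} ha hb := ⟨Submodule.add_mem _ ha.1 hb.1, by
    rw [map_add, smul_add]; exact (D.form X).add _ ha.2 _ hb.2⟩
  smul {X j} r a ha := ⟨Submodule.smul_mem _ _ ha.1, by
    rw [inc_smul, smul_comm]
    exact (D.form X).smul _ (hE _) _ ha.2⟩
  cl {X j z} hz := ⟨(WE W E).cl_mem hz, by
    rw [cl_et, inc_et, smul_tm, OneMemClass.coe_one, mul_one]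
    exact (D.form X).cyc j _ ⟨z, hz, rfl⟩⟩
  mul {X i j a b} ha hb := ⟨by
      have := (WE W E).mul_mem ha.1 hb.1
      rwa [show 2 * i + 2 * j = 2 * (i + j) by ring] at this, by
    have h1 := (D.form X).mul _ ha.2 _ hb.2
    rwa [smul_mul_smul_comm, ← pow_add, ← map_mul] at h1⟩
  map {X Y} f j a ha := ⟨(WE W E).map_mem f ha.1, by
    have h1 := D.map f _ ha.2
    rwa [map_smul, ← inc_map] at h1⟩
  push {X Y} f j l hl a ha := by
    refine ⟨?_, ?_⟩
    · have h2 := (WE W E).push_mem f ha.1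
      have e1 : ((2 * j : ℕ) : ℤ) + 2 * ((Y.dim : ℤ) - X.dim) = ((2 * l : ℕ) : ℤ) := by
        push_cast; omega
      rw [e1, grZ_natCast] at h2
      exact h2
    · apply mem_dR
      intro w hw
      obtain ⟨r, hr, h⟩ := (D.form X).tr _ ((D.form X).mul _ ha.2 _ (D.map f w hw))
      refine ⟨r, hr, ?_⟩
      rw [smul_mul_assoc, map_smul, smul_eq_mul] at h
      rw [smul_mul_assoc, map_smul, tr_push_inc, smul_eq_mul]
      have h1 : twoPiI ^ X.dim * (twoPiI ^ l *
          baseTr (W.tr X) (inc X a * baseMap (W.map f) w)) =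
          twoPiI ^ X.dim * (twoPiI ^ Y.dim * r) := by
        rw [← mul_assoc, ← pow_add, add_comm X.dim l, hl, add_comm j, pow_add, mul_assoc, h]
        ring
      exact mul_left_cancel₀ (pow_ne_zero _ twoPiI_ne) h1

variable {E}

lemma predE_iff {D : DeRham W F} {hE : ∀ e : E, (e : ℂ) ∈ F} {j : ℕ} {c : (WE W E).H X} :
    (predE E D hE).P X j c ↔ c ∈ (WE W E).gr X (2 * j) ∧ twoPiI ^ j • inc X c ∈ D.dR X := Iff.rfl

variable [Algebra.IsAlgebraic W.K E]

/-- The conjugates of a class with a finite orbit. -/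
lemma conj_of_finOrb (hF : ∀ a : ℂ, IsAlgebraic W.K a → a ∈ F)
    (hF' : ∀ a : ℂ, IsAlgebraic F a → a ∈ F) {D : DeRham W F} {hD : IsGraded D}
    {hW : HasLefschetz W} {j : ℕ} {z : (WE W E).H X} (h : FinOrb (actE E hF D hD hW) X j z)
    (τ : ℂ ≃ₐ[W.K] ℂ) : twoPiI ^ j • sB τ (inc X z) ∈ D.dR X := by
  apply mem_dR_of_finite D hF'
  apply (h.image fun x => twoPiI ^ j • sB τ (kap W E X x)).subset
  rintro _ ⟨g, rfl⟩
  refine ⟨_, ⟨(g, τ.symm), rfl⟩, ?_⟩
  change twoPiI ^ j • sB τ (kap W E X ((((chiX (W := W) (g, τ.symm)) ^ j)⁻¹ : ℂˣ).val •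
    hE E D X (g, τ.symm) ((1 : ℂ) ⊗ₜ[(WE W E).K] z))) = dRs D X g (twoPiI ^ j • sB τ (inc X z))
  rw [hE_apply, kap_smul, RingEquiv.apply_symm_apply, kap_tmul, one_smul, hX_apply]
  change twoPiI ^ j • sB τ ((((chiX (W := W) (g, τ.symm)) ^ j)⁻¹ : ℂˣ).val •
    sB τ.symm (dRs D X g (sB τ.symm.symm (inc X z)))) = _
  rw [sB_smul, sB_symm, AlgEquiv.symm_symm, dRs_smul, smul_smul]
  congr 1
  rw [Units.val_inv_eq_inv_val, Units.val_pow_eq_pow_val, chiX_val]
  change twoPiI ^ j * τ ((τ.symm ((chi g : ℂˣ) : ℂ) ^ j)⁻¹) = _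
  rw [map_inv₀, map_pow, AlgEquiv.apply_symm_apply, map_pow, chi, Units.val_mk0, div_pow, inv_div,
    mul_div_cancel₀]
  exact pow_ne_zero _ twoPiI_ne

/-- The rational classes have finite orbits. -/
lemma finOrb_rat (hF : ∀ a : ℂ, IsAlgebraic W.K a → a ∈ F) {D : DeRham W F} {hD : IsGraded D}
    {hW : HasLefschetz W} {j : ℕ} {c : W.H X} (hc : IsDRB D X j c) (e : E) :
    FinOrb (actE E hF D hD hW) X j (et e c) := by
  have h0 : FinOrb (actE E hF D hD hW) X j (et 1 c) := by
    apply FinOrb.of_fixed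
    intro t
    change (((chiX t) ^ j)⁻¹ : ℂˣ).val • hE E D X t ((1 : ℂ) ⊗ₜ[(WE W E).K] et 1 c) = _
    rw [← kap_symm_tm, hE_apply, RingEquiv.apply_symm_apply, hX_twist D t hc.2, kap_symm_smul,
      smul_smul, ← Units.val_pow_eq_pow_val, ← Units.val_mul, inv_mul_cancel, Units.val_one,
      one_smul]
  have h1 := h0.smul (show (WE W E).K from e)
  rwa [et_smul, mul_one] at h1

end Pool.Agent.H36AC
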